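import Pool.Agent.Helper21.AC0p.FewDisj

open Pool.Agent.Helper21.AC0p

/-- Exponential lower bound for bounded-depth Frege with `MOD_p` when the disjunctions take
all but few of their disjuncts from a set of at most `n ^ (1 + 1 / (2 ^ h - 1) - η)` formulas. -/
theorem Pool.Agent.Results.MP_7a4ff1_lc.FewDisjuncts.result (p : ℕ) (hp : p.Prime) :
    ∃ (c : ℕ) (F : ℕ → List Clause),
      (∀ n, (∀ C ∈ F n, C.length ≤ c ∧ ∀ l ∈ C, l.1 < n) ∧ (F n).length ≤ c * (n + 1) ∧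
        Unsat (F n)) ∧
      ∀ R : List Rule, (∀ r ∈ R, r.Sound p) → ∀ d h : ℕ, 1 ≤ h → ∀ η : ℝ, 0 < η →
        ∃ ε : ℝ, 0 < ε ∧ ∃ n₀ : ℕ, ∀ n : ℕ, n₀ ≤ n → ∀ π : List Fm, Refutation R (F n) π →
          ∀ t : ℕ, (t : ℝ) ≤ (n : ℝ) ^ ε → (∀ A ∈ π, A.depth ≤ d ∧ A.wideDepth t ≤ h) →
          ∀ P : Finset Fm, (P.card : ℝ) ≤ (n : ℝ) ^ (1 + 1 / ((2 : ℝ) ^ h - 1) - η) →
            (∀ (k : ℕ) (f : Fin k → Fm), (∃ A ∈ π, Fm.IsSub (Fm.or k f) A) →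
              (Set.range f \ (P : Set Fm)).ncard ≤ t) →
            (2 : ℝ) ^ ((n : ℝ) ^ ε) ≤ numOr π ∧ (2 : ℝ) ^ ((n : ℝ) ^ ε) ≤ psize π := by
  obtain ⟨c, F, hF, hmain⟩ := few_disjuncts p hp
  refine ⟨c, F, hF, ?_⟩
  intro R hR d h hh η hη
  obtain ⟨ε, hε, n₀, hn₀⟩ := hmain R hR d h hh η hη
  refine ⟨ε, hε, n₀, ?_⟩
  intro n hn π hπ t ht hdep P hP hPop
  exact hn₀ n hn π hπ t ht hdep (P : Set Fm) P.finite_toSet
    (by rwa [Set.ncard_coe_finset]) hPop
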