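import Pool.Agent.Helper36.BL.Main

set_option autoImplicit false

namespace Pool.Agent.Helper21.Old.NearFive

open Pool.Agent.Helper20 Pool.Agent.Helper36.BL SimpleGraph

/-- Real chromatic roots below `5`: let `G` be a finite graph without a `K₅` minor (for instance a
planar graph) and let `N ≥ 2` be such that every minor of `G` of minimum degree at least five has at
most `N` vertices (the number of vertices of `G` is such a number). Then the chromatic polynomial of
`G` is positive at every real `q > 5 - 4 / (3 N)`. -/
theorem result {V : Type} [Finite V] (G : SimpleGraph V)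
    (hG : ¬ IsMinor (⊤ : SimpleGraph (Fin 5)) G)
    (p : Polynomial ℝ) (hp : IsChromaticPolynomial G p) :
    SmallCore G (Nat.card V) ∧
    ∀ N : ℕ, 2 ≤ N → SmallCore G N → ∀ q : ℝ, 5 - 4 / (3 * (N : ℝ)) < q → 0 < p.eval q := by
  refine ⟨?_, ?_⟩
  · rintro W _ H ⟨B, hB1, hB2, -⟩ -
    have h : ∀ w, ∃ x, x ∈ B w := fun w => by
      obtain ⟨⟨x, hx⟩⟩ := (hB1 w).nonempty
      exact ⟨x, hx⟩
    choose f hf using h
    apply Nat.card_le_card_of_injective f
    intro w w' hww
    by_contra hne
    exact Set.disjoint_left.mp (hB2 w w' hne) (hf w) (hww ▸ hf w')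
  · intro N hN2 hN q hq
    have := Fintype.ofFinite V
    have e : p = cp G := by
      apply poly_ext
      intro n
      rw [hp n, natCard_coloring, cp_eval]
    rw [e]
    exact pos_core N hN2 q hq _ V G rfl hG hN

end Pool.Agent.Helper21.Old.NearFive
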