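import Pool.Agent.Helper21.AC0p.Superlin

open Pool.Agent.Helper21.AC0p

/-- For every bounded-depth Frege system with `MOD_p` the unsatisfiable CNFs `F n`, of size
linear in `n`, need refutations of size `n ^ (1 + 1 / h - η)`, where `h` bounds the nesting of
the disjunctions with more than `n ^ ε` distinct disjuncts (in particular `h` can be taken to be
the depth bound `d` when `1 ≤ d`). -/
theorem Pool.Agent.Results.MP_7a4ff1_lc.SuperlinearSize.result (p : ℕ) (hp : p.Prime) :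
    ∃ (c : ℕ) (F : ℕ → List Clause),
      (∀ n, (∀ C ∈ F n, C.length ≤ c ∧ ∀ l ∈ C, l.1 < n) ∧ (F n).length ≤ c * (n + 1) ∧
        Unsat (F n)) ∧
      ∀ R : List Rule, (∀ r ∈ R, r.Sound p) → ∀ d h : ℕ, 1 ≤ h → ∀ η : ℝ, 0 < η →
        ∃ ε : ℝ, 0 < ε ∧ ∃ n₀ : ℕ, ∀ n : ℕ, n₀ ≤ n → ∀ π : List Fm, Refutation R (F n) π →
          ∀ t : ℕ, (t : ℝ) ≤ (n : ℝ) ^ ε → (∀ A ∈ π, A.depth ≤ d ∧ A.wideDepth t ≤ h) →
            (n : ℝ) ^ (1 + 1 / (h : ℝ) - η) ≤ psize π :=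
  superlinear p hp
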